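import Pool.Agent.Helper69.BQ.Defs

/-!
# Project BQ, piece E1 (MP_282bb6_nt)
-/

namespace Pool.Agent.Helper30.BQ

open Module NumberField Pool.Agent.Helper25.Biq Pool.Agent.Helper69.BQ

variable {K : Type} [Field K] [NumberField K] {g12 g13 g23 : ℤ}

/-- E1. Multiplication in coordinates. -/
lemma ev_mul (D : Dat K g12 g13 g23) (h2 : 2 ∣ g23) (h4 : 2 ∣ g12 + g13) (x y : Q4) :
    D.ev (Q4.mul g12 g13 g23 x y) = D.ev x * D.ev y := by
  obtain ⟨r, hr⟩ := h2
  obtain ⟨l, hl⟩ := h4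
  have hg : g13 = 2 * l - g12 := by linarith
  subst hr hg
  have d1 : (2 * r) / 2 = r := by omega
  have d2 : (g12 + (2 * l - g12)) / 2 = l := by omega
  have d3 : (2 * l - g12 - g12) / 2 = l - g12 := by omega
  have q1 := D.q1
  have q2 := D.q2
  have q3 := D.q3
  have e12 := D.e12
  have e13 := D.e13
  have e23 := D.e23
  push_cast at q1 q2 q3 e12 e13 e23
  simp only [Dat.ev, Q4.mul, d1, d2, d3]
  push_cast
  linear_combination -(x.b * y.b : K) * q1 - (x.c * y.c : K) * q2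
    - (x.b * y.c + x.c * y.b : K) * e12 - (x.b * y.d + x.d * y.b : K) * (e12 + e13) / 2
    - (x.c * y.d + x.d * y.c : K) * (q2 + e23) / 2 - (x.d * y.d : K) * (q2 + q3 + 2 * e23) / 4

/-- E2. The automorphisms in coordinates. -/
lemma ev_aut (D : Dat K g12 g13 g23) (x : Q4) :
    D.σ (D.ev x) = D.ev x.sig ∧ D.τ (D.ev x) = D.ev x.tau := by
  constructor
  · simp only [Dat.ev, Q4.sig, map_add, map_mul, map_div₀, map_intCast, map_ofNat, D.σ1, D.σ2,
      D.σ3]
    push_cast
    ring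
  · simp only [Dat.ev, Q4.tau, map_add, map_mul, map_div₀, map_intCast, map_ofNat, D.τ1, D.τ2,
      D.τ3]
    push_cast
    ring

/-- E3. The coordinates give algebraic integers. -/
lemma ev_int (D : Dat K g12 g13 g23) (h2 : 2 ∣ g23) (h4 : 4 ∣ g12 + g13) (x : Q4) :
    IsIntegral ℤ (D.ev x) := by
  have hz : ∀ n : ℤ, IsIntegral ℤ (n : K) := fun n => by
    simpa using (isIntegral_algebraMap (R := ℤ) (A := K) (x := n))
  have h1 : IsIntegral ℤ D.s1 := by
    refine IsIntegral.of_pow (n := 2) (by norm_num) ?_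
    rw [D.q1]; exact hz _
  have h2' : IsIntegral ℤ D.s2 := by
    refine IsIntegral.of_pow (n := 2) (by norm_num) ?_
    rw [D.q2]; exact hz _
  have hω : IsIntegral ℤ ((D.s2 + D.s3) / 2) := by
    refine IsIntegral.of_pow (n := 2) (by norm_num) ?_
    have h4' : 2 ∣ g12 + g13 := Dvd.dvd.trans (by norm_num) h4
    have e := ev_mul D h2 h4' ⟨0, 0, 0, 1⟩ ⟨0, 0, 0, 1⟩
    have e' : D.ev ⟨0, 0, 0, 1⟩ = (D.s2 + D.s3) / 2 := by simp [Dat.ev]
    rw [sq, ← e', ← e]
    simp only [Dat.ev, Q4.mul]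
    have : (((0 : ℤ) * 0 + 0 * 0 * (g12 * g13) + 0 * 0 * (g12 * g23) + (0 * 1 + 1 * 0) *
        (g12 * (g23 / 2)) + 1 * 1 * ((g23 / 2) * ((g12 + g13) / 2)) : ℤ)) =
        (g23 / 2) * ((g12 + g13) / 2) := by ring
    refine IsIntegral.add (IsIntegral.add (IsIntegral.add (hz _) ((hz _).mul h1))
      ((hz _).mul h2')) ?_
    have : ((0 : ℤ) * 1 + 1 * 0 + 2 * g12 * (0 * 0 + 0 * 0) + g12 * (0 * 1 + 1 * 0)) = 0 := by ring
    rw [this]
    simpa using hz 0
  exact IsIntegral.add (IsIntegral.add (IsIntegral.add (hz _) ((hz _).mul h1))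
      ((hz _).mul h2')) ((hz _).mul hω)

/-- E4. If `a a' = m²` and `x a + y a' = 1`, then `(a) = (a, m)²`. -/
lemma sq_ideal {R : Type} [CommRing R] {a a' m x y : R} (h : a * a' = m ^ 2)
    (h1 : x * a + y * a' = 1) : Ideal.span {a, m} ^ 2 = Ideal.span {a} := by
  rw [sq, Ideal.span_pair_mul_span_pair]
  apply le_antisymm
  · rw [Ideal.span_le]
    intro z hz
    simp only [Set.mem_insert_iff, Set.mem_singleton_iff] at hz
    rw [SetLike.mem_coe, Ideal.mem_span_singleton]
    rcases hz with rfl | rfl | rfl | rfl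
    · exact dvd_mul_right _ _
    · exact dvd_mul_right _ _
    · exact dvd_mul_left _ _
    · exact ⟨a', by rw [h]; ring⟩
  · rw [Ideal.span_singleton_le_iff_mem]
    have e : a = x * (a * a) + y * (m * m) := by
      have : y * (m * m) = y * (a * a') := by rw [h]; ring
      rw [this]
      calc a = a * 1 := by ring
        _ = a * (x * a + y * a') := by rw [h1]
        _ = _ := by ring
    rw [e]
    refine Ideal.add_mem _ (Ideal.mul_mem_left _ _ (Ideal.subset_span ?_))
      (Ideal.mul_mem_left _ _ (Ideal.subset_span ?_))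
    · rw [← e]; simp
    · simp

end Pool.Agent.Helper30.BQ
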